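import Pool.Agent.N505.Rips.Final

/-!
# Vietoris–Rips complexes of `ℤ^n` and of the cube: the homology criterion fails

For `n = 9`, `r = 7`, `i = 31` the reduced homology group of `VR(ℤ^9; 7)` is not zero while that of
`VR({0, 1}^9; 7)` is zero.

* The class in `VR(ℤ^9; 7)` is that of a `31`-dimensional cross-polytope inside the box
  `{0, 1, 2} × {0, 1}^8`, two opposite facets of which are the 32 points
  `{0} × X₀ ∪ {2} × X₂`, with `X₀` a linear `[8, 4]` code and `X₂` a coset of it, and their
  complements in the last eight coordinates. The first of these facets is a maximal simplex of the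
  box, onto which `ℤ^9` retracts by clamping.
* In the cube, a linear `[9, 6]` code `B` of diameter at most `7` such that every vertex has at
  most two members of `B` at distance at least `8` is used to fill every cycle of degree `31`.
-/

set_option autoImplicit false

namespace Pool.Agent.Results.MP_cf6741_gt.NineSeven

open Pool.Agent.N505.Rips

/-- The group `H̃_31(VR(ℤ^9; 7); ℤ)` is not zero, the group `H̃_31(VR({0, 1}^9; 7); ℤ)` is zero. -/
theorem result :
    Nontrivial (ReducedHomology (VR (Zn 9) 7) 31) ∧
      ¬ Nontrivial (ReducedHomology (VR ↥(cube 9) 7) 31) :=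
  ⟨lattice_nine, fun h => not_subsingleton_iff_nontrivial.2 h cube_nine⟩

end Pool.Agent.Results.MP_cf6741_gt.NineSeven
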